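import Pool.Agent.helper83.Mix.Defs
import Pool.Agent.helper38.Neg.Walk

/-!
# Project HN (MP_069684_lc): circuits of AND, OR, NOT gates as mixed circuits
-/

set_option autoImplicit false

namespace Pool.Agent.HN

open Finset Pool.Agent.helper38.Neg Pool.Agent.Mix

/-- AND and OR are monotone gates, NOT gates and constants are free gates. -/
def toMix {n : ℕ} : {s : ℕ} → Circuit n s → MixCircuit n s
  | _, Circuit.nil => MixCircuit.nil
  | _, Circuit.snoc C (Gate.const b) => MixCircuit.free (toMix C) (N := 0) (fun _ => if b = true then 1 else 0) Fin.elim0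
  | _, Circuit.snoc C (Gate.and i j) => MixCircuit.mono (toMix C) (fun a b => min a b)
      (fun _ _ _ _ h h' => min_le_min h h') i j
  | _, Circuit.snoc C (Gate.or i j) => MixCircuit.mono (toMix C) (fun a b => max a b)
      (fun _ _ _ _ h h' => max_le_max h h') i j
  | _, Circuit.snoc C (Gate.not i) => MixCircuit.free (toMix C) (N := 1) (fun v => 1 - v 0) (fun _ => i)

/-- truth value as a real number -/
def bv (b : Bool) : ℝ := if b = true then 1 else 0

theorem snoc_bv {N : ℕ} (u : Fin N → ℝ) (v : Fin N → Bool) (a : ℝ) (b : Bool) (h : ∀ i, u i = bv (v i))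
    (h' : a = bv b) (i : Fin (N + 1)) : (Fin.snoc (α := fun _ => ℝ) u a : Fin (N + 1) → ℝ) i =
      bv ((Fin.snoc (α := fun _ => Bool) v b : Fin (N + 1) → Bool) i) := by
  induction i using Fin.lastCases with
  | last => rw [Fin.snoc_last, Fin.snoc_last]; exact h'
  | cast i => rw [Fin.snoc_castSucc, Fin.snoc_castSucc]; exact h i

theorem toMix_val {n s : ℕ} (C : Circuit n s) (x : Fin n → Bool) :
    ∀ i : Fin (n + s), (toMix C).val x i = bv (C.val x i) := by
  induction C with
  | nil => exact fun i => rfl
  | snoc C g ih =>
    cases g with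
    | const b =>
      exact snoc_bv ((toMix C).val x) (C.val x) (if b = true then 1 else 0) b ih rfl
    | and a b =>
      refine snoc_bv ((toMix C).val x) (C.val x) (min ((toMix C).val x a) ((toMix C).val x b))
        (C.val x a && C.val x b) ih ?_
      rw [ih a, ih b]
      unfold bv
      cases C.val x a <;> cases C.val x b <;> simp
    | or a b =>
      refine snoc_bv ((toMix C).val x) (C.val x) (max ((toMix C).val x a) ((toMix C).val x b))
        (C.val x a || C.val x b) ih ?_
      rw [ih a, ih b]
      unfold bv
      cases C.val x a <;> cases C.val x b <;> simp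
    | not a =>
      refine snoc_bv ((toMix C).val x) (C.val x) (1 - (toMix C).val x a) (!(C.val x a)) ih ?_
      rw [ih a]
      unfold bv
      cases C.val x a <;> simp

theorem toMix_size {n s : ℕ} (C : Circuit n s) : (toMix C).size ≤ s := by
  induction C with
  | nil => exact le_rfl
  | snoc C g ih =>
    cases g with
    | const b => show (toMix C).size ≤ _; omega
    | and a b => show (toMix C).size + 1 ≤ _; omega
    | or a b => show (toMix C).size + 1 ≤ _; omega
    | not a => show (toMix C).size ≤ _; omega

theorem toMix_reads {n s : ℕ} (C : Circuit n s) (x y : Fin n → Bool) (h : C.notVals x = C.notVals y) :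
    ∀ i ∈ (toMix C).reads, C.val x i = C.val y i := by
  induction C with
  | nil => intro i hi; exact absurd hi (Finset.notMem_empty i)
  | snoc C g ih =>
    cases g with
    | const b =>
      intro i hi
      have h1 : C.notVals x = C.notVals y := h
      change i ∈ ((toMix C).reads ∪ Finset.univ.image (Fin.elim0 : Fin 0 → _)).map Fin.castSuccEmb at hi
      rw [Finset.mem_map] at hi
      obtain ⟨j, hj, rfl⟩ := hi
      rw [Finset.mem_union] at hj
      rcases hj with hj | hj
      · have h2 := ih h1 j hj
        show (Fin.snoc (α := fun _ => Bool) (C.val x) b : Fin _ → Bool) (Fin.castSucc j) =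
          (Fin.snoc (α := fun _ => Bool) (C.val y) b : Fin _ → Bool) (Fin.castSucc j)
        rw [Fin.snoc_castSucc, Fin.snoc_castSucc]
        exact h2
      · obtain ⟨k, -, -⟩ := Finset.mem_image.1 hj
        exact k.elim0
    | and a b =>
      intro i hi
      have h1 : C.notVals x = C.notVals y := h
      change i ∈ (toMix C).reads.map Fin.castSuccEmb at hi
      rw [Finset.mem_map] at hi
      obtain ⟨j, hj, rfl⟩ := hi
      have h2 := ih h1 j hj
      show (Fin.snoc (α := fun _ => Bool) (C.val x) _ : Fin _ → Bool) (Fin.castSucc j) =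
        (Fin.snoc (α := fun _ => Bool) (C.val y) _ : Fin _ → Bool) (Fin.castSucc j)
      rw [Fin.snoc_castSucc, Fin.snoc_castSucc]
      exact h2
    | or a b =>
      intro i hi
      have h1 : C.notVals x = C.notVals y := h
      change i ∈ (toMix C).reads.map Fin.castSuccEmb at hi
      rw [Finset.mem_map] at hi
      obtain ⟨j, hj, rfl⟩ := hi
      have h2 := ih h1 j hj
      show (Fin.snoc (α := fun _ => Bool) (C.val x) _ : Fin _ → Bool) (Fin.castSucc j) =
        (Fin.snoc (α := fun _ => Bool) (C.val y) _ : Fin _ → Bool) (Fin.castSucc j)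
      rw [Fin.snoc_castSucc, Fin.snoc_castSucc]
      exact h2
    | not a =>
      intro i hi
      have h1 : C.notVals x ++ [!(C.val x a)] = C.notVals y ++ [!(C.val y a)] := h
      obtain ⟨h2, h3⟩ := List.append_inj' h1 rfl
      have h4 : C.val x a = C.val y a := by simpa using h3
      change i ∈ ((toMix C).reads ∪ Finset.univ.image (fun _ : Fin 1 => a)).map Fin.castSuccEmb at hi
      rw [Finset.mem_map] at hi
      obtain ⟨j, hj, rfl⟩ := hi
      show (Fin.snoc (α := fun _ => Bool) (C.val x) _ : Fin _ → Bool) (Fin.castSucc j) =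
        (Fin.snoc (α := fun _ => Bool) (C.val y) _ : Fin _ → Bool) (Fin.castSucc j)
      rw [Fin.snoc_castSucc, Fin.snoc_castSucc]
      rw [Finset.mem_union] at hj
      rcases hj with hj | hj
      · exact ih h2 j hj
      · obtain ⟨k, -, rfl⟩ := Finset.mem_image.1 hj
        exact h4

theorem toMix_patterns {n s K : ℕ} (C : Circuit n s) (h : C.PatternsLE K) : (toMix C).PatternsLE K := by
  intro x hx
  refine le_trans ?_ (h x hx)
  have h1 : ∀ v ∈ Set.range fun j => (toMix C).pat (x j), ∃ j, (toMix C).pat (x j) = v := fun v hv => hv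
  choose! g hg using h1
  refine Set.encard_le_encard_of_injOn (f := fun v => C.notVals (x (g v))) ?_ ?_
  · intro v _
    exact ⟨g v, rfl⟩
  · intro v hv w hw hvw
    rw [← hg v hv, ← hg w hw]
    funext i
    show (toMix C).val (x (g v)) i = (toMix C).val (x (g w)) i
    rw [toMix_val, toMix_val, toMix_reads C _ _ hvw i i.2]

theorem toMix_computes {n s : ℕ} (C : Circuit n s) (o : Fin (n + s)) (f : (Fin n → Bool) → Prop)
    (h : C.Computes o f) : (toMix C).Computes o f := by
  intro x
  rw [toMix_val, ← h x]
  unfold bv
  cases C.val x o <;> simp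

end Pool.Agent.HN
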