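import Pool.Agent.helper69.HN.Des
import Pool.Agent.helper38.Neg.ClqMain

/-!
# Project HN (MP_069684_lc): unions of q-colourable graphs on the blocks of a design have no large clique
-/

set_option autoImplicit false

namespace Pool.Agent.HN

open Finset Pool.Agent.helper38.Neg

open Classical in
/-- Adjacency matrix of the union of the graphs `c l` placed on the blocks of the design. -/
noncomputable def dMatrix {M m K k q : ℕ} (Φ : Des M m K k q) (c : ℕ → (Edge m → Bool)) :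
    Fin (M * M) → Bool := fun i =>
  if h : ∃ l : ℕ, ∃ e : Edge m, l < K ∧ Φ.φ l e.1.1 = (finProdFinEquiv.symm i).1 ∧
      Φ.φ l e.1.2 = (finProdFinEquiv.symm i).2 then
    c h.choose h.choose_spec.choose
  else false

theorem dMatrix_apply {M m K k q : ℕ} (Φ : Des M m K k q) (c : ℕ → (Edge m → Bool)) {l : ℕ}
    (hl : l < K) (e : Edge m) :
    dMatrix Φ c (finProdFinEquiv (Φ.φ l e.1.1, Φ.φ l e.1.2)) = c l e := by
  classical
  have h : ∃ l' : ℕ, ∃ e' : Edge m, l' < K ∧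
      Φ.φ l' e'.1.1 = (finProdFinEquiv.symm (finProdFinEquiv (Φ.φ l e.1.1, Φ.φ l e.1.2))).1 ∧
      Φ.φ l' e'.1.2 = (finProdFinEquiv.symm (finProdFinEquiv (Φ.φ l e.1.1, Φ.φ l e.1.2))).2 := by
    refine ⟨l, e, hl, ?_, ?_⟩ <;> rw [Equiv.symm_apply_apply]
  unfold dMatrix
  rw [dif_pos h]
  obtain ⟨h1, h2, h3⟩ := h.choose_spec.choose_spec
  have key : ∀ (l' : ℕ) (e' : Edge m), l' < K → Φ.φ l' e'.1.1 = Φ.φ l e.1.1 →
      Φ.φ l' e'.1.2 = Φ.φ l e.1.2 → c l' e' = c l e := by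
    intro l' e' h1 h2 h3
    have hll : l' = l := by
      by_contra hne
      have := Φ.lin l' h1 l hl hne _ _ _ _ h2 h3
      exact absurd this (ne_of_lt e'.2)
    subst hll
    have hinj := (Φ.mono l' hl).injective
    have he : e' = e := Subtype.ext (Prod.ext (hinj h2) (hinj h3))
    rw [he]
  exact key _ _ h1 (h2.trans (by rw [Equiv.symm_apply_apply]))
    (h3.trans (by rw [Equiv.symm_apply_apply]))

theorem dMatrix_true {M m K k q : ℕ} (Φ : Des M m K k q) (c : ℕ → (Edge m → Bool)) {u v : Fin M}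
    (h : dMatrix Φ c (finProdFinEquiv (u, v)) = true) :
    ∃ l < K, ∃ e : Edge m, Φ.φ l e.1.1 = u ∧ Φ.φ l e.1.2 = v ∧ c l e = true := by
  classical
  by_cases hex : ∃ l' : ℕ, ∃ e' : Edge m, l' < K ∧
      Φ.φ l' e'.1.1 = (finProdFinEquiv.symm (finProdFinEquiv (u, v))).1 ∧
      Φ.φ l' e'.1.2 = (finProdFinEquiv.symm (finProdFinEquiv (u, v))).2
  · obtain ⟨l, e, hl, h1, h2⟩ := hex
    rw [Equiv.symm_apply_apply] at h1 h2
    simp only at h1 h2
    refine ⟨l, hl, e, h1, h2, ?_⟩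
    rw [← h1, ← h2, dMatrix_apply Φ c hl e] at h
    exact h
  · unfold dMatrix at h
    rw [dif_neg hex] at h
    exact absurd h (by simp)

/-- The graph `y` has a proper colouring with `q` colours. -/
def Colourable {m : ℕ} (q : ℕ) (y : Edge m → Bool) : Prop :=
  ∃ χ : Fin m → Fin q, ∀ e : Edge m, y e = true → χ e.1.1 ≠ χ e.1.2

theorem no_clique {M m K k q : ℕ} (Φ : Des M m K k q) (c : ℕ → (Edge m → Bool)) (hc : ∀ l, Colourable q (c l)) :
    ¬ Clique M k (dMatrix Φ c) := by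
  classical
  rintro ⟨S, hS, hSc⟩
  have hpair : ∀ u ∈ S, ∀ v ∈ S, u ≠ v → ∃ l < K, ∃ x y, Φ.φ l x = u ∧ Φ.φ l y = v := by
    intro u hu v hv huv
    rcases lt_or_gt_of_ne huv with hlt | hgt
    · obtain ⟨l, hl, e, h1, h2, _⟩ := dMatrix_true Φ c (hSc u hu v hv hlt)
      exact ⟨l, hl, _, _, h1, h2⟩
    · obtain ⟨l, hl, e, h1, h2, _⟩ := dMatrix_true Φ c (hSc v hv u hu hgt)
      exact ⟨l, hl, _, _, h2, h1⟩
  obtain ⟨l, hl, S', hS'S, hcard, hS'⟩ := Φ.thin S hS hpair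
  obtain ⟨χ, hχ⟩ := hc l
  have hne : ∀ x y : Fin m, x < y → Φ.φ l x ∈ S → Φ.φ l y ∈ S → χ x ≠ χ y := by
    intro x y hxy hx hy
    have h1 := hSc _ hx _ hy (Φ.mono l hl hxy)
    have h2 := dMatrix_apply Φ c hl (⟨(x, y), hxy⟩ : Edge m)
    simp only at h2
    rw [h1] at h2
    exact hχ ⟨(x, y), hxy⟩ h2.symm
  have hm : Nonempty (Fin m) := by
    have h1 : S'.Nonempty := by
      rw [← Finset.card_pos]
      omega
    obtain ⟨u, hu⟩ := h1
    obtain ⟨x, -⟩ := hS' u hu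
    exact ⟨x⟩
  choose! ψ hψ using hS'
  have hinj : Set.InjOn (fun u => χ (ψ u)) S' := by
    intro u hu v hv huv
    simp only at huv
    by_contra huv'
    have h1 : ψ u ≠ ψ v := by
      intro h
      apply huv'
      rw [← hψ u hu, ← hψ v hv, h]
    have hu' : Φ.φ l (ψ u) ∈ S := by rw [hψ u hu]; exact hS'S hu
    have hv' : Φ.φ l (ψ v) ∈ S := by rw [hψ v hv]; exact hS'S hv
    rcases lt_or_gt_of_ne h1 with hlt | hgt
    · exact hne _ _ hlt hu' hv' huv
    · exact hne _ _ hgt hv' hu' huv.symm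
  have h1 := Finset.card_le_card_of_injOn (t := (univ : Finset (Fin q))) (fun u => χ (ψ u))
    (fun _ _ => Finset.mem_coe.2 (Finset.mem_univ _)) hinj
  rw [Finset.card_univ, Fintype.card_fin] at h1
  omega

theorem has_clique {M m K k q : ℕ} (Φ : Des M m K k q) (c : ℕ → (Edge m → Bool)) (l : ℕ) (hl : l < K)
    (h : ClqFn m k (c l)) : Clique M k (dMatrix Φ c) := by
  classical
  obtain ⟨S, hS, hc⟩ := h
  have hmono := Φ.mono l hl
  refine ⟨S.image (Φ.φ l), ?_, ?_⟩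
  · rw [card_image_of_injective _ hmono.injective, hS]
  · intro u hu v hv huv
    obtain ⟨u', hu', rfl⟩ := mem_image.1 hu
    obtain ⟨v', hv', rfl⟩ := mem_image.1 hv
    have huv' : u' < v' := hmono.lt_iff_lt.1 huv
    rw [dMatrix_apply Φ c hl ⟨(u', v'), huv'⟩]
    exact hc ⟨(u', v'), huv'⟩ hu' hv'

end Pool.Agent.HN
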