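import Pool.Agent.helper83.Mix.Walk

/-!
# Project HN (MP_069684_lc): the walk with a promise

`P`: the negative graphs, `Q`: the positive graphs on a block. The circuit accepts if some block is positive
and rejects if all blocks are negative; it has few patterns. Then there is a monotone real computation, not larger
than the circuit, which accepts all positive and rejects all negative graphs on one block.
-/

set_option autoImplicit false

namespace Pool.Agent.HN

open Finset Pool.Agent.helper38.Neg Pool.Agent.helper83.Comb Pool.Agent.Mix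

/-- The walk. -/
theorem walkP {n s K : ℕ} {κ : Type} [Finite κ] (C : MixCircuit n s) (o : Fin (n + s))
    (f : (Fin n → Bool) → Prop) (P Q : (κ → Bool) → Prop) (G : (ℕ → κ → Bool) → (Fin n → Bool))
    (hG : ∀ i, (∀ c, G c i = false) ∨ ∃ l k, ∀ c, G c i = c l k)
    (hfn : ∀ c, (∀ l, P (c l)) → ¬ f (G c)) (hfp : ∀ c, ∀ l < K, Q (c l) → f (G c))
    (h0 : P (fun _ => false)) (hcomp : C.Computes o f) (hpat : C.PatternsLE K) :
    ∃ L : List ((κ → Bool) → ℝ), RChain L ∧ L.length ≤ C.size ∧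
      ∃ (N : ℕ) (F : Fin N → (κ → Bool) → ℝ) (θ : Fin N → ℝ), (∀ i, RAvail L (F i)) ∧
        (∀ y, P y → ¬ ∃ i, θ i ≤ F i y) ∧ ∀ y, Q y → ∃ i, θ i ≤ F i y := by
  classical
  have hGmono : Monotone G := by
    intro c c' hcc i
    rcases hG i with h1 | ⟨l, k, h1⟩
    · rw [h1, h1]
    · rw [h1, h1]; exact hcc l k
  obtain ⟨c, j, hjK, hv, hst⟩ := mix_stuck C (fun y => ¬ P y) G hGmono (fun h => h h0) hpat
  let X : (κ → Bool) → (Fin n → Bool) := fun y => G (Function.update c j y)
  have hXn : ∀ y, P y → ¬ f (X y) := by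
    intro y hy
    apply hfn
    intro l
    by_cases hlj : l = j
    · subst hlj
      rwa [Function.update_self]
    · rw [Function.update_of_ne hlj]
      rcases lt_or_ge l j with h1 | h1
      · exact not_not.1 (hv.1 l h1)
      · rw [hv.2 l h1]
        exact h0
  have hXp : ∀ y, Q y → f (X y) := by
    intro y hy
    apply hfp _ j hjK
    rwa [Function.update_self]
  have hXav : ∀ i, (∃ b, ∀ y, X y i = b) ∨ ∃ k, ∀ y, X y i = y k := by
    intro i
    rcases hG i with h1 | ⟨l, k, h1⟩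
    · exact Or.inl ⟨false, fun y => h1 _⟩
    · by_cases hlj : l = j
      · subst hlj
        refine Or.inr ⟨k, fun y => ?_⟩
        simp only [X]
        rw [h1, Function.update_self]
      · refine Or.inl ⟨c l k, fun y => ?_⟩
        simp only [X]
        rw [h1, Function.update_of_ne hlj]
  have hle : ∀ y, G c ≤ X y := by
    intro y
    apply hGmono
    intro l
    by_cases hlj : l = j
    · subst hlj
      rw [hv.2 l le_rfl, Function.update_self]
      intro k; simp
    · rw [Function.update_of_ne hlj]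
  obtain ⟨L, hL, hlen, hk⟩ := mix_build C (G c) X hXav
  have hthr : ∀ i : Fin (n + s), ∃ θ : ℝ, ∀ y, θ ≤ C.fz (G c) (X y) i ↔
      (i ∈ C.reads ∧ C.val (G c) i < C.fz (G c) (X y) i) := by
    intro i
    by_cases hi : i ∈ C.reads
    · obtain ⟨θ, hθ⟩ := mix_thr (fun y : κ → Bool => C.fz (G c) (X y) i) (C.val (G c) i)
      exact ⟨θ, fun y => (hθ y).trans ⟨fun h => ⟨hi, h⟩, fun h => h.2⟩⟩
    · obtain ⟨θ, hθ⟩ := mix_top (fun y : κ → Bool => C.fz (G c) (X y) i)
      exact ⟨θ, fun y => ⟨fun h => absurd h (hθ y), fun h => absurd h.1 hi⟩⟩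
  choose θ hθ using hthr
  have keyn : ∀ y, P y → ¬ (1 ≤ C.fz (G c) (X y) o ∨
      ∃ i, i ∈ C.reads ∧ C.val (G c) i < C.fz (G c) (X y) i) := by
    intro y hn hy
    have hs : C.Same (X y) (G c) := (MixCircuit.pat_eq_iff C _ _).1 (hst y (not_not.2 hn))
    have e1 := MixCircuit.fz_eq C (G c) (X y) hs
    rcases hy with hy | ⟨i, hi, hlt⟩
    · rw [e1] at hy
      exact hXn y hn ((hcomp (X y)).1 hy)
    · rw [e1, hs i hi] at hlt
      exact lt_irrefl _ hlt
  have keyp : ∀ y, Q y → (1 ≤ C.fz (G c) (X y) o ∨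
      ∃ i, i ∈ C.reads ∧ C.val (G c) i < C.fz (G c) (X y) i) := by
    intro y hy
    by_cases hp : C.Same (X y) (G c)
    · left
      rw [MixCircuit.fz_eq C (G c) (X y) hp]
      exact (hcomp (X y)).2 (hXp y hy)
    · right
      obtain ⟨i, hi, hlt⟩ := MixCircuit.fz_ne C (G c) (X y) (hle y) hp
      exact ⟨i, hi, hlt⟩
  have heq : ∀ y, (∃ i : Fin (n + s + 1), (Fin.cons 1 θ : Fin (n + s + 1) → ℝ) i ≤
      (Fin.cons (fun y => C.fz (G c) (X y) o) (fun i y => C.fz (G c) (X y) i) :
        Fin (n + s + 1) → (κ → Bool) → ℝ) i y) ↔ (1 ≤ C.fz (G c) (X y) o ∨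
      ∃ i, i ∈ C.reads ∧ C.val (G c) i < C.fz (G c) (X y) i) := by
    intro y
    rw [Fin.exists_fin_succ]
    simp only [Fin.cons_zero, Fin.cons_succ]
    constructor
    · rintro (h | ⟨i, hi⟩)
      · exact Or.inl h
      · exact Or.inr ⟨i, (hθ i y).1 hi⟩
    · rintro (h | ⟨i, hi⟩)
      · exact Or.inl h
      · exact Or.inr ⟨i, (hθ i y).2 hi⟩
  refine ⟨L, hL, hlen, n + s + 1,
    Fin.cons (fun y => C.fz (G c) (X y) o) (fun i y => C.fz (G c) (X y) i),
    Fin.cons 1 θ, ?_, fun y hy => ?_, fun y hy => ?_⟩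
  · intro i
    refine Fin.cases ?_ (fun l => ?_) i
    · rw [Fin.cons_zero]
      exact hk o
    · rw [Fin.cons_succ]
      exact hk l
  · rw [heq y]
    exact keyn y hy
  · rw [heq y]
    exact keyp y hy

end Pool.Agent.HN
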