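import Pool.Agent.helper69.HN.RQ
import Pool.Agent.helper69.HN.WP
import Pool.Agent.helper69.HN.Uni

/-!
# Project HN (MP_069684_lc): the bound for natural parameters
-/

set_option autoImplicit false

namespace Pool.Agent.HN

open Finset Pool.Agent.helper38.Neg Pool.Agent.helper83.Comb Pool.Agent.Mix

theorem mix_core {k M K t L p s : ℕ} [Fact p.Prime] (ht : 3 ≤ t) (hML : M ≤ 2 ^ L)
    (hk : (4 * t ^ 2) ^ 2 * (L + 1) ≤ k - 1) (hM : k * (8 * t ^ 2) * p ≤ M) (hmp : k * (8 * t ^ 2) ≤ p)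
    (hK : 2 * K ≤ p ^ 2) (C : MixCircuit (M * M) s) (o : Fin (M * M + s))
    (hC : C.Computes o (Clique M k)) (hpat : C.PatternsLE K) : 2 ^ (t - 1) ≤ C.size + 1 := by
  classical
  have ht2 : 9 ≤ t ^ 2 := by
    calc 9 = 3 ^ 2 := by norm_num
      _ ≤ t ^ 2 := Nat.pow_le_pow_left ht 2
  have hk2 : 2 ≤ k := by
    have h1 : 1 ≤ (4 * t ^ 2) ^ 2 * (L + 1) := Nat.mul_pos (by positivity) (by omega)
    omega
  have hq : 1 ≤ 4 * t ^ 2 := by omega
  obtain ⟨Φ⟩ := exists_des (q := 4 * t ^ 2) hM hmp hK hML hk2 hq hk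
  obtain ⟨Ls, hL, hlen, N, F, θ, hF, hFn, hFp⟩ := walkP C o (Clique M k)
    (Colourable (4 * t ^ 2)) (ClqFn (k * (8 * t ^ 2)) k) (dMatrix Φ) (by
      intro i
      unfold dMatrix
      by_cases h : ∃ l : ℕ, ∃ e : Edge (k * (8 * t ^ 2)), l < K ∧
          Φ.φ l e.1.1 = (finProdFinEquiv.symm i).1 ∧
          Φ.φ l e.1.2 = (finProdFinEquiv.symm i).2
      · right
        exact ⟨_, _, fun c => by rw [dif_pos h]⟩
      · left
        intro c
        rw [dif_neg h]) (fun c hc => no_clique Φ c hc) (fun c l hl hc => has_clique Φ c l hl hc)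
    (by
      refine ⟨fun _ => ⟨0, by omega⟩, fun e he => ?_⟩
      simp at he) hC hpat
  have h1 := rclq_promise (q := 4 * t ^ 2) ht le_rfl le_rfl hL F hF θ
    (fun χ => hFn _ ⟨χ, fun e he => by simpa [mult] using he⟩)
    (fun g => hFp _ ⟨trans g, card_trans g, fun e h1 h2 => by simp [clq, h1, h2]⟩)
  have h2 : 2 ^ t = 2 * 2 ^ (t - 1) := by
    rw [← pow_succ']; congr 1; omega
  omega

theorem mix_param {k M K t L s : ℕ} (ht : 3 ≤ t) (hML : M ≤ 2 ^ L)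
    (hk : (4 * t ^ 2) ^ 2 * (L + 1) ≤ k - 1) (hM : 2 * (k * (8 * t ^ 2)) ^ 2 ≤ M)
    (hK : 8 * (k * (8 * t ^ 2)) ^ 2 * K ≤ M ^ 2) (C : MixCircuit (M * M) s) (o : Fin (M * M + s))
    (hC : C.Computes o (Clique M k)) (hpat : C.PatternsLE K) : 2 ^ (t - 1) ≤ C.size + 1 := by
  have ht2 : 9 ≤ t ^ 2 := by
    calc 9 = 3 ^ 2 := by norm_num
      _ ≤ t ^ 2 := Nat.pow_le_pow_left ht 2
  have hk2 : 2 ≤ k := by
    have h1 : 1 ≤ (4 * t ^ 2) ^ 2 * (L + 1) := Nat.mul_pos (by positivity) (by omega)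
    omega
  set m := k * (8 * t ^ 2) with hm
  have hm1 : 1 ≤ m := Nat.mul_pos (by omega) (by omega)
  have hn0 : m ≤ M / (2 * m) := by
    rw [Nat.le_div_iff_mul_le (by omega)]
    calc m * (2 * m) = 2 * m ^ 2 := by ring
      _ ≤ M := hM
  obtain ⟨p, hp, hp1, hp2⟩ := Nat.exists_prime_lt_and_le_two_mul (M / (2 * m)) (by omega)
  have : Fact p.Prime := ⟨hp⟩
  have h1 : m * p ≤ M := by
    calc m * p ≤ m * (2 * (M / (2 * m))) := Nat.mul_le_mul_left _ hp2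
      _ = (2 * m) * (M / (2 * m)) := by ring
      _ ≤ M := Nat.mul_div_le _ _
  have h2 : M < 2 * m * p := by
    have h3 : M < 2 * m * (M / (2 * m) + 1) := Nat.lt_mul_div_succ M (by omega)
    exact lt_of_lt_of_le h3 (Nat.mul_le_mul_left _ hp1)
  have h3 : 2 * K ≤ p ^ 2 := by
    have h4 : M ^ 2 ≤ (2 * m * p) ^ 2 := Nat.pow_le_pow_left h2.le 2
    have h5 : 4 * m ^ 2 * (2 * K) ≤ 4 * m ^ 2 * p ^ 2 := by
      calc 4 * m ^ 2 * (2 * K) = 8 * m ^ 2 * K := by ring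
        _ ≤ M ^ 2 := hK
        _ ≤ (2 * m * p) ^ 2 := h4
        _ = 4 * m ^ 2 * p ^ 2 := by ring
    exact Nat.le_of_mul_le_mul_left h5 (by positivity)
  exact mix_core ht hML hk h1 (by omega) h3 C o hC hpat

end Pool.Agent.HN
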