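import Mathlib

/-!
# Project HN (MP_069684_lc): a random half of the lines of a plane

Blocks: lines of the plane over `ZMod p`, restricted to `m` columns. Two lines share at most one point. For a
suitable half of all lines every `k`-set of points, all of whose pairs are covered, has more than `q` points on some line.
-/

set_option autoImplicit false

namespace Pool.Agent.HN

open Finset

/-- A half of a finite set which contains no member of a small family of large sets. -/
theorem exists_half {Λ : Type} [Fintype Λ] [DecidableEq Λ] (T : Finset (Finset Λ)) (b : ℕ)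
    (h : ∀ t ∈ T, b ≤ t.card) (hc : 2 * T.card < 2 ^ b) :
    ∃ A : Finset Λ, Fintype.card Λ ≤ 2 * A.card ∧ ∀ t ∈ T, ¬ t ⊆ A := by
  classical
  by_contra hcon
  push Not at hcon
  set N := Fintype.card Λ with hN
  let U1 : Finset (Finset Λ) := univ.filter fun A => N ≤ 2 * A.card
  let U2 : Finset (Finset Λ) := univ.filter fun A => ¬ N ≤ 2 * A.card
  have h1 : U2.card ≤ U1.card := by
    apply Finset.card_le_card_of_injOn (fun A => Aᶜ)
    · intro A hA
      rw [Finset.mem_coe, Finset.mem_filter] at hA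
      rw [Finset.mem_coe, Finset.mem_filter]
      refine ⟨Finset.mem_univ _, ?_⟩
      rw [Finset.card_compl]
      have := hA.2
      have h2 := Finset.card_le_univ A
      omega
    · intro A _ B _ hAB
      exact compl_injective hAB
  have h2 : U1.card + U2.card = 2 ^ N := by
    have h3 := Finset.card_filter_add_card_filter_not (s := (univ : Finset (Finset Λ))) (fun A => N ≤ 2 * A.card)
    rw [Finset.card_univ, Fintype.card_finset] at h3
    exact h3
  have h3 : U1 ⊆ T.biUnion fun t => Finset.Icc t univ := by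
    intro A hA
    rw [Finset.mem_filter] at hA
    obtain ⟨t, ht, htA⟩ := hcon A hA.2
    rw [Finset.mem_biUnion]
    exact ⟨t, ht, Finset.mem_Icc.2 ⟨htA, Finset.subset_univ _⟩⟩
  have h4 : U1.card ≤ ∑ t ∈ T, 2 ^ (N - t.card) := by
    refine (Finset.card_le_card h3).trans (Finset.card_biUnion_le.trans (le_of_eq ?_))
    apply Finset.sum_congr rfl
    intro t _
    rw [Finset.card_Icc_finset (Finset.subset_univ t), Finset.card_univ]
  rcases T.eq_empty_or_nonempty with hT | ⟨t0, ht0⟩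
  · rw [hT, Finset.sum_empty] at h4
    have : 0 < 2 ^ N := by positivity
    omega
  · have hbN : b ≤ N := (h t0 ht0).trans (Finset.card_le_univ t0)
    have h5 : ∑ t ∈ T, 2 ^ (N - t.card) ≤ T.card * 2 ^ (N - b) := by
      calc ∑ t ∈ T, 2 ^ (N - t.card) ≤ ∑ _t ∈ T, 2 ^ (N - b) :=
            Finset.sum_le_sum fun t ht => Nat.pow_le_pow_right (by norm_num) (Nat.sub_le_sub_left (h t ht) _)
        _ = T.card * 2 ^ (N - b) := by rw [Finset.sum_const, smul_eq_mul]
    have h6 : 2 ^ N = 2 ^ b * 2 ^ (N - b) := by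
      rw [← pow_add]
      congr 1
      omega
    have h7 : 2 ^ N ≤ 2 * T.card * 2 ^ (N - b) := by
      rw [mul_assoc]
      omega
    rw [h6] at h7
    have h8 := Nat.le_of_mul_le_mul_right h7 (by positivity)
    omega

/-- The points of the line with the parameters `ℓ`. -/
def pt {p m M : ℕ} [Fact p.Prime] (hM : m * p ≤ M) (l : ZMod p × ZMod p) (x : Fin m) : Fin M :=
  ⟨(x : ℕ) * p + (l.1 * ((x : ℕ) : ZMod p) + l.2).val, by
    have h1 := ZMod.val_lt (l.1 * ((x : ℕ) : ZMod p) + l.2)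
    have h2 : ((x : ℕ) + 1) * p ≤ m * p := Nat.mul_le_mul_right _ x.2
    have h3 : ((x : ℕ) + 1) * p = (x : ℕ) * p + p := by ring
    omega⟩

theorem pt_inj {p m M : ℕ} [Fact p.Prime] (hM : m * p ≤ M) {l l' : ZMod p × ZMod p} {x x' : Fin m}
    (h : pt hM l x = pt hM l' x') : x = x' ∧ l.1 * ((x : ℕ) : ZMod p) + l.2 = l'.1 * ((x : ℕ) : ZMod p) + l'.2 := by
  have hp : 0 < p := (Fact.out (p := p.Prime)).pos
  have h1 : (x : ℕ) * p + (l.1 * ((x : ℕ) : ZMod p) + l.2).val =
      (x' : ℕ) * p + (l'.1 * ((x' : ℕ) : ZMod p) + l'.2).val := congrArg Fin.val h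
  have h2 := ZMod.val_lt (l.1 * ((x : ℕ) : ZMod p) + l.2)
  have h3 := ZMod.val_lt (l'.1 * ((x' : ℕ) : ZMod p) + l'.2)
  have h4 : (x : ℕ) = x' := by
    have h5 : ((x : ℕ) * p + (l.1 * ((x : ℕ) : ZMod p) + l.2).val) / p =
        ((x' : ℕ) * p + (l'.1 * ((x' : ℕ) : ZMod p) + l'.2).val) / p := by rw [h1]
    rw [mul_comm, Nat.mul_add_div hp, Nat.div_eq_of_lt h2, mul_comm (x' : ℕ), Nat.mul_add_div hp, Nat.div_eq_of_lt h3] at h5
    omega
  have h5 : x = x' := Fin.ext h4
  subst h5
  refine ⟨rfl, ZMod.val_injective p ?_⟩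
  omega

theorem pt_mono {p m M : ℕ} [Fact p.Prime] (hM : m * p ≤ M) (l : ZMod p × ZMod p) : StrictMono (pt (m := m) hM l) := by
  intro x y hxy
  rw [Fin.lt_def]
  show (x : ℕ) * p + (l.1 * ((x : ℕ) : ZMod p) + l.2).val < (y : ℕ) * p + (l.1 * ((y : ℕ) : ZMod p) + l.2).val
  have h1 := ZMod.val_lt (l.1 * ((x : ℕ) : ZMod p) + l.2)
  have h2 : ((x : ℕ) + 1) * p ≤ (y : ℕ) * p := Nat.mul_le_mul_right _ hxy
  have h3 : ((x : ℕ) + 1) * p = (x : ℕ) * p + p := by ring
  omega

theorem pt_lin {p m M : ℕ} [Fact p.Prime] (hM : m * p ≤ M) (hmp : m ≤ p) {l l' : ZMod p × ZMod p} {x y x' y' : Fin m}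
    (h1 : pt hM l x = pt hM l' x') (h2 : pt hM l y = pt hM l' y') (hxy : x ≠ y) : l = l' := by
  obtain ⟨-, e1⟩ := pt_inj hM h1
  obtain ⟨-, e2⟩ := pt_inj hM h2
  have h3 : (l.1 - l'.1) * (((x : ℕ) : ZMod p) - ((y : ℕ) : ZMod p)) = 0 := by
    linear_combination e1 - e2
  have h4 : (((x : ℕ) : ZMod p) - ((y : ℕ) : ZMod p)) ≠ 0 := by
    intro h5
    apply hxy
    apply Fin.ext
    have h6 : ((x : ℕ) : ZMod p) = ((y : ℕ) : ZMod p) := sub_eq_zero.1 h5
    have h7 := congrArg ZMod.val h6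
    rwa [ZMod.val_natCast_of_lt (lt_of_lt_of_le x.2 hmp), ZMod.val_natCast_of_lt (lt_of_lt_of_le y.2 hmp)] at h7
  have h5 : l.1 = l'.1 := sub_eq_zero.1 ((mul_eq_zero.1 h3).resolve_right h4)
  refine Prod.ext h5 ?_
  rw [h5] at e1
  exact add_left_cancel e1

/-- A family of `K` blocks of `m` vertices: two blocks share at most one vertex, and a set of `k` vertices all
of whose pairs are covered has more than `q` vertices in some block. -/
structure Des (M m K k q : ℕ) where
  /-- the vertices of the blocks -/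
  φ : ℕ → Fin m → Fin M
  mono : ∀ l < K, StrictMono (φ l)
  lin : ∀ l < K, ∀ l' < K, l ≠ l' → ∀ x y x' y', φ l x = φ l' x' → φ l y = φ l' y' → x = y
  thin : ∀ S : Finset (Fin M), S.card = k →
    (∀ u ∈ S, ∀ v ∈ S, u ≠ v → ∃ l < K, ∃ x y, φ l x = u ∧ φ l y = v) →
    ∃ l < K, ∃ S' ⊆ S, q < S'.card ∧ ∀ u ∈ S', ∃ x, φ l x = u

open Classical in
/-- The lines with at least two points in `S`. -/
noncomputable def TL {p m M : ℕ} [Fact p.Prime] (hM : m * p ≤ M) (S : Finset (Fin M)) : Finset (ZMod p × ZMod p) :=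
  univ.filter fun l => ∃ u ∈ S, ∃ v ∈ S, u ≠ v ∧ (∃ x, pt (m := m) hM l x = u) ∧ ∃ y, pt (m := m) hM l y = v

theorem exists_des {p m M K k q L : ℕ} [Fact p.Prime] (hM : m * p ≤ M) (hmp : m ≤ p) (hK : 2 * K ≤ p ^ 2)
    (hML : M ≤ 2 ^ L) (hk : 2 ≤ k) (hq : 1 ≤ q) (hqk : q ^ 2 * (L + 1) ≤ k - 1) : Nonempty (Des M m K k q) := by
  classical
  -- the forbidden sets
  let T : Finset (Finset (ZMod p × ZMod p)) :=
    (((univ : Finset (Fin M)).powersetCard k).filter fun S => k * (L + 1) ≤ (TL (m := m) hM S).card).image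
      (TL (m := m) hM)
  have hT1 : ∀ t ∈ T, k * (L + 1) ≤ t.card := by
    intro t ht
    obtain ⟨S, hS, rfl⟩ := Finset.mem_image.1 ht
    exact (Finset.mem_filter.1 hS).2
  have hT2 : 2 * T.card < 2 ^ (k * (L + 1)) := by
    have h1 : T.card ≤ M ^ k := by
      refine Finset.card_image_le.trans ((Finset.card_filter_le _ _).trans ?_)
      rw [Finset.card_powersetCard, Finset.card_univ, Fintype.card_fin]
      exact Nat.choose_le_pow M k
    have h2 : M ^ k ≤ 2 ^ (L * k) := by
      rw [pow_mul]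
      exact Nat.pow_le_pow_left hML k
    have h3 : 2 ^ (k * (L + 1)) = 2 ^ (L * k) * 2 ^ k := by
      rw [← pow_add]
      congr 1
      ring
    have h4 : 2 ^ 2 ≤ 2 ^ k := Nat.pow_le_pow_right (by norm_num) hk
    have h5 : 0 < 2 ^ (L * k) := by positivity
    rw [h3]
    nlinarith
  obtain ⟨A, hA, hAT⟩ := exists_half T _ hT1 hT2
  have hcard : Fintype.card (Fin K) ≤ Fintype.card A := by
    rw [Fintype.card_fin, Fintype.card_coe]
    rw [Fintype.card_prod, ZMod.card, ← pow_two] at hA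
    omega
  obtain ⟨e⟩ := Function.Embedding.nonempty_of_card_le hcard
  let φ : ℕ → Fin m → Fin M := fun l x => if h : l < K then pt hM ((e ⟨l, h⟩ : A) : ZMod p × ZMod p) x else pt hM (0, 0) x
  have hφ : ∀ l (h : l < K) x, φ l x = pt hM ((e ⟨l, h⟩ : A) : ZMod p × ZMod p) x := fun l h x => dif_pos h
  refine ⟨⟨φ, ?_, ?_, ?_⟩⟩
  · intro l hl x y hxy
    rw [hφ l hl, hφ l hl]
    exact pt_mono hM _ hxy
  · intro l hl l' hl' hne x y x' y' h1 h2
    by_contra hxy
    rw [hφ l hl, hφ l' hl'] at h1 h2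
    have h3 := pt_lin hM hmp h1 h2 hxy
    have h4 := e.injective (Subtype.ext h3)
    exact hne (congrArg Fin.val h4)
  · intro S hS hcov
    by_contra hcon
    push Not at hcon
    -- the lines through two points of S
    have hTA : ∀ l ∈ TL (m := m) hM S, ∃ i : Fin K, ((e i : A) : ZMod p × ZMod p) = l := by
      intro l hl
      unfold TL at hl
      rw [Finset.mem_filter] at hl
      obtain ⟨-, u, hu, v, hv, huv, ⟨x, hx⟩, y, hy⟩ := hl
      obtain ⟨i, hi, x', y', hx', hy'⟩ := hcov u hu v hv huv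
      refine ⟨⟨i, hi⟩, ?_⟩
      rw [hφ i hi] at hx' hy'
      refine pt_lin hM hmp (hx'.trans hx.symm) (hy'.trans hy.symm) ?_
      intro h
      apply huv
      rw [← hx', ← hy', h]
    have hsub : TL (m := m) hM S ⊆ A := by
      intro l hl
      obtain ⟨i, hi⟩ := hTA l hl
      rw [← hi]
      exact (e i).2
    -- the number of pairs
    have hpairs : S.offDiag ⊆ (TL (m := m) hM S).biUnion fun l =>
        (S.filter fun u => ∃ x, pt (m := m) hM l x = u).offDiag := by
      intro z hz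
      rw [Finset.mem_offDiag] at hz
      obtain ⟨hu, hv, huv⟩ := hz
      obtain ⟨i, hi, x', y', hx', hy'⟩ := hcov z.1 hu z.2 hv huv
      rw [hφ i hi] at hx' hy'
      rw [Finset.mem_biUnion]
      refine ⟨_, ?_, Finset.mem_offDiag.2 ⟨Finset.mem_filter.2 ⟨hu, x', hx'⟩, Finset.mem_filter.2 ⟨hv, y', hy'⟩, huv⟩⟩
      unfold TL
      rw [Finset.mem_filter]
      exact ⟨Finset.mem_univ _, z.1, hu, z.2, hv, huv, ⟨x', hx'⟩, y', hy'⟩
    have hone : ∀ l ∈ TL (m := m) hM S, (S.filter fun u => ∃ x, pt (m := m) hM l x = u).offDiag.card ≤ q ^ 2 := by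
      intro l hl
      obtain ⟨i, hi⟩ := hTA l hl
      have h1 : (S.filter fun u => ∃ x, pt (m := m) hM l x = u).card ≤ q := by
        by_contra h2
        push Not at h2
        obtain ⟨u, hu, hux⟩ := hcon i i.2 _ (Finset.filter_subset _ _) h2
        obtain ⟨x, hx⟩ := (Finset.mem_filter.1 hu).2
        apply hux x
        rw [hφ i i.2, ← hx]
        have : (⟨(i : ℕ), i.2⟩ : Fin K) = i := rfl
        rw [this, hi]
      rw [Finset.offDiag_card]
      refine (Nat.sub_le _ _).trans ?_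
      rw [pow_two]
      exact Nat.mul_le_mul h1 h1
    have hcount : k * k - k ≤ (TL (m := m) hM S).card * q ^ 2 := by
      have h1 := Finset.card_le_card hpairs
      rw [Finset.offDiag_card, hS] at h1
      refine h1.trans (Finset.card_biUnion_le.trans ?_)
      calc _ ≤ ∑ _l ∈ TL (m := m) hM S, q ^ 2 := Finset.sum_le_sum hone
        _ = _ := by rw [Finset.sum_const, smul_eq_mul]
    have hbig : k * (L + 1) ≤ (TL (m := m) hM S).card := by
      have h1 : k * (q ^ 2 * (L + 1)) ≤ k * (k - 1) := Nat.mul_le_mul_left _ hqk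
      have h2 : k * (k - 1) = k * k - k := by rw [Nat.mul_sub, mul_one]
      have h3 : k * (L + 1) * q ^ 2 ≤ (TL (m := m) hM S).card * q ^ 2 := by
        calc k * (L + 1) * q ^ 2 = k * (q ^ 2 * (L + 1)) := by ring
          _ ≤ k * (k - 1) := h1
          _ = k * k - k := h2
          _ ≤ _ := hcount
      exact Nat.le_of_mul_le_mul_right h3 (by positivity)
    refine hAT (TL (m := m) hM S) ?_ hsub
    exact Finset.mem_image.2 ⟨S, Finset.mem_filter.2 ⟨Finset.mem_powersetCard.2 ⟨Finset.subset_univ _, hS⟩, hbig⟩, rfl⟩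

end Pool.Agent.HN
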