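import Pool.Agent.helper69.HN.Core
import Pool.Agent.helper69.HN.Conv
import Pool.Agent.helper69.LN.MixPad

/-!
# Project HN (MP_069684_lc): all clique sizes
-/

set_option autoImplicit false

namespace Pool.Agent.HN

open Finset Pool.Agent.helper38.Neg Pool.Agent.helper83.Comb Pool.Agent.Mix
open Pool.Agent.LN (sb padσ pad_clique mix_sub mix_sub_pat LBU_mono)

/-- Universal vertices. -/
theorem mix_univ {M j k s K : ℕ} (C : MixCircuit ((M + j) * (M + j)) s) (o : Fin ((M + j) * (M + j) + s))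
    (hC : C.Computes o (Clique (M + j) (k + j))) (hp : C.PatternsLE K) :
    ∃ (C' : MixCircuit (M * M) (2 + s)) (o' : Fin (M * M + (2 + s))),
      C'.Computes o' (Clique M k) ∧ C'.PatternsLE K ∧ C'.size = C.size := by
  obtain ⟨C', hsz, ρ, hρ, hrd⟩ := mix_sub ((M + j) * (M + j)) (M * M) s (padσ M j) C
  refine ⟨C', ρ o, ?_, ?_, hsz⟩
  · intro x
    rw [hρ x o]
    exact (hC _).trans (pad_clique M j k x)
  · intro x hx
    refine (mix_sub_pat (padσ M j) C C' ρ hρ hrd x).trans ?_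
    exact hp (fun i => sb (padσ M j) (x i)) (fun i i' hij => LBU_mono (padσ M j) (hx hij))

/-- The bound with natural parameters, for all clique sizes up to half the number of vertices. -/
theorem nat_bound {N κ K k t L s : ℕ} (hNK : N ≤ K) (hκ : 2 * κ ≤ N) (hkκ : k ≤ κ) (hNL : N ≤ 2 ^ L)
    (ht : 3 ≤ t) (htk : 16 * t ^ 4 * (L + 1) + 1 ≤ k) (hK : 128 * k ^ 3 * K ≤ N ^ 2)
    (C : MixCircuit (N * N) s) (o : Fin (N * N + s))
    (hC : C.Computes o (Clique N κ)) (hpat : C.PatternsLE K) : 2 ^ (t - 1) ≤ C.size + 1 := by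
  obtain ⟨j, rfl⟩ : ∃ j, κ = k + j := ⟨κ - k, by omega⟩
  obtain ⟨M, rfl⟩ : ∃ M, N = M + j := ⟨N - j, by omega⟩
  obtain ⟨C', o', hC', hp', hsz⟩ := mix_univ C o hC hpat
  rw [← hsz]
  have hN1 : 1 ≤ M + j := by omega
  have h1 : 128 * k ^ 3 ≤ M + j := by
    have h2 : 128 * k ^ 3 * (M + j) ≤ (M + j) * (M + j) := by
      calc 128 * k ^ 3 * (M + j) ≤ 128 * k ^ 3 * K := Nat.mul_le_mul_left _ hNK
        _ ≤ (M + j) ^ 2 := hK
        _ = (M + j) * (M + j) := pow_two _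
    exact Nat.le_of_mul_le_mul_right h2 hN1
  have h16 : 16 * t ^ 4 ≤ k := by
    have h2 : 16 * t ^ 4 * 1 ≤ 16 * t ^ 4 * (L + 1) := Nat.mul_le_mul_left _ (by omega)
    omega
  have hsq : (k * (8 * t ^ 2)) ^ 2 ≤ 4 * k ^ 3 := by
    calc (k * (8 * t ^ 2)) ^ 2 = 4 * k ^ 2 * (16 * t ^ 4) := by ring
      _ ≤ 4 * k ^ 2 * k := Nat.mul_le_mul_left _ h16
      _ = 4 * k ^ 3 := by ring
  refine mix_param ht (L := L) (by omega) ?_ ?_ ?_ C' o' hC' hp'
  · have h2 : (4 * t ^ 2) ^ 2 * (L + 1) = 16 * t ^ 4 * (L + 1) := by ring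
    omega
  · omega
  · have h2 : 8 * (k * (8 * t ^ 2)) ^ 2 * K ≤ 8 * (4 * k ^ 3) * K :=
      Nat.mul_le_mul_right _ (Nat.mul_le_mul_left _ hsq)
    have h3 : 4 * (8 * (4 * k ^ 3) * K) ≤ (2 * M) ^ 2 := by
      calc 4 * (8 * (4 * k ^ 3) * K) = 128 * k ^ 3 * K := by ring
        _ ≤ (M + j) ^ 2 := hK
        _ ≤ (2 * M) ^ 2 := Nat.pow_le_pow_left (by omega) 2
    have h4 : (2 * M) ^ 2 = 4 * M ^ 2 := by ring
    omega

/-- The explicit bound, for all clique sizes up to half the number of vertices. -/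
theorem real_bound {N κ K s : ℕ} (hNK : N ≤ K) (hκ : 2 * κ ≤ N)
    (C : MixCircuit (N * N) s) (o : Fin (N * N + s))
    (hC : C.Computes o (Clique N κ)) (hpat : C.PatternsLE K) :
    (2 : ℝ) ^ ((min (κ : ℝ) (((N : ℝ) ^ 2 / K) ^ ((1 : ℝ) / 3)) / Real.logb 2 N) ^ ((1 : ℝ) / 4) / 4 - 3) ≤
      C.size + 1 := by
  have hs : (0 : ℝ) ≤ C.size := by positivity
  by_cases hN2 : N < 2
  · have h1 : Real.logb 2 N = 0 := by
      have : N = 0 ∨ N = 1 := by omega
      rcases this with h | h <;> rw [h] <;> simp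
    rw [h1, div_zero, Real.zero_rpow (by norm_num)]
    have h3 : (2 : ℝ) ^ ((0 : ℝ) / 4 - 3) ≤ 2 ^ (0 : ℝ) :=
      Real.rpow_le_rpow_of_exponent_le (by norm_num) (by norm_num)
    rw [Real.rpow_zero] at h3
    linarith
  have hN2' : 2 ≤ N := by omega
  have hK2 : 2 ≤ K := by omega
  -- the clique size in the blocks
  set k₀ := Nat.findGreatest (fun k => 128 * k ^ 3 * K ≤ N ^ 2) N with hk₀
  have hk1 : 128 * k₀ ^ 3 * K ≤ N ^ 2 :=
    Nat.findGreatest_spec (P := fun k => 128 * k ^ 3 * K ≤ N ^ 2) (Nat.zero_le N) (by simp)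
  have hk2 : N ^ 2 < 128 * (k₀ + 1) ^ 3 * K := by
    by_contra hcon
    push Not at hcon
    by_cases h1 : k₀ + 1 ≤ N
    · exact Nat.findGreatest_is_greatest (P := fun k => 128 * k ^ 3 * K ≤ N ^ 2) (Nat.lt_succ_self k₀) h1 hcon
    · have h2 : N ≤ k₀ := by omega
      have h3 : 128 * N ^ 3 * N ≤ N ^ 2 := by
        calc 128 * N ^ 3 * N ≤ 128 * k₀ ^ 3 * K :=
              Nat.mul_le_mul (Nat.mul_le_mul_left _ (Nat.pow_le_pow_left h2 3)) hNK
          _ ≤ N ^ 2 := hk1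
      have h4 : 128 * N ^ 3 * N = 128 * N ^ 2 * N ^ 2 := by ring
      have h5 : 1 ≤ N ^ 2 := Nat.one_le_pow _ _ (by omega)
      nlinarith
  set k := min k₀ κ with hk
  have hkκ : k ≤ κ := min_le_right _ _
  have hkK : 128 * k ^ 3 * K ≤ N ^ 2 :=
    (Nat.mul_le_mul_right _ (Nat.mul_le_mul_left _ (Nat.pow_le_pow_left (min_le_left _ _) 3))).trans hk1
  set L := Nat.clog 2 N with hL
  have hNL : N ≤ 2 ^ L := Nat.le_pow_clog (by norm_num) N
  -- the number t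
  set a := (k - 1) / (16 * (L + 1)) with ha
  set u := Nat.sqrt a with hu
  set t := Nat.sqrt u with ht
  have hta : t ^ 4 ≤ a := by
    have h1 : t * t ≤ u := Nat.sqrt_le u
    have h2 : u * u ≤ a := Nat.sqrt_le a
    calc t ^ 4 = (t * t) * (t * t) := by ring
      _ ≤ u * u := Nat.mul_le_mul h1 h1
      _ ≤ a := h2
  have hat : a < (t + 1) ^ 4 := by
    have h1 : u < (t + 1) * (t + 1) := Nat.lt_succ_sqrt u
    have h2 : a < (u + 1) * (u + 1) := Nat.lt_succ_sqrt a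
    calc a < (u + 1) * (u + 1) := h2
      _ ≤ ((t + 1) * (t + 1)) * ((t + 1) * (t + 1)) := Nat.mul_le_mul h1 h1
      _ = (t + 1) ^ 4 := by ring
  have hkt : k ≤ 16 * (L + 1) * (t + 1) ^ 4 := by
    have h1 : k - 1 < 16 * (L + 1) * (a + 1) := Nat.lt_mul_div_succ _ (by omega)
    have h2 : 16 * (L + 1) * (a + 1) ≤ 16 * (L + 1) * (t + 1) ^ 4 := Nat.mul_le_mul_left _ hat
    omega
  -- the logarithm
  set lam := Real.logb 2 N with hlam
  have hNR : (2 : ℝ) ≤ N := by exact_mod_cast hN2'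
  have hlam1 : 1 ≤ lam := by
    rw [hlam, Real.le_logb_iff_rpow_le (by norm_num) (by linarith), Real.rpow_one]
    exact hNR
  have hLlam : (L : ℝ) + 1 ≤ 3 * lam := by
    have h1 : (L : ℝ) ≤ lam + 1 := by
      have h2 : (L : ℕ) - 1 < L := by
        have : 0 < L := Nat.clog_pos (by norm_num) hN2'
        omega
      have h3 : 2 ^ (L - 1) < N := (Nat.lt_clog_iff_pow_lt (by norm_num)).1 h2
      have h4 : ((L - 1 : ℕ) : ℝ) ≤ lam := by
        rw [hlam, Real.le_logb_iff_rpow_le (by norm_num) (by linarith), Real.rpow_natCast]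
        exact_mod_cast h3.le
      have h5 : (L : ℝ) ≤ ((L - 1 : ℕ) : ℝ) + 1 := by
        exact_mod_cast (by omega : L ≤ L - 1 + 1)
      linarith
    linarith
  have hX : (min (κ : ℝ) (((N : ℝ) ^ 2 / K) ^ ((1 : ℝ) / 3)) / lam) ^ ((1 : ℝ) / 4) ≤ 4 * (t + 1) := by
    have hKR : (0 : ℝ) < K := by exact_mod_cast (by omega : 0 < K)
    have hk1R : ((k : ℝ) + 1) ≤ 50 * lam * (t + 1) ^ 4 := by
      have h1 : (k : ℝ) ≤ 16 * (L + 1) * (t + 1) ^ 4 := by exact_mod_cast hkt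
      have h0 : (0 : ℝ) ≤ t := by positivity
      have h2 : (1 : ℝ) ≤ ((t : ℝ) + 1) ^ 4 := one_le_pow₀ (by linarith)
      have h3 : 16 * ((L : ℝ) + 1) * (t + 1) ^ 4 ≤ 48 * lam * (t + 1) ^ 4 := by
        apply mul_le_mul_of_nonneg_right _ (by positivity)
        linarith
      have h4 : 1 ≤ lam * ((t : ℝ) + 1) ^ 4 := by
        calc (1 : ℝ) = 1 * 1 := by norm_num
          _ ≤ lam * (t + 1) ^ 4 := mul_le_mul hlam1 h2 (by norm_num) (by linarith)
      nlinarith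
    have hm : min (κ : ℝ) (((N : ℝ) ^ 2 / K) ^ ((1 : ℝ) / 3)) ≤ 5.04 * (k + 1) := by
      rcases le_total k₀ κ with h | h
      · have h0 : k = k₀ := min_eq_left h
        have h1 : (N : ℝ) ^ 2 ≤ 128 * (k + 1) ^ 3 * K := by
          rw [h0]
          exact_mod_cast hk2.le
        have h2 : (N : ℝ) ^ 2 / K ≤ (5.04 * (k + 1)) ^ 3 := by
          rw [div_le_iff₀ hKR]
          calc (N : ℝ) ^ 2 ≤ 128 * (k + 1) ^ 3 * K := h1
            _ ≤ (5.04 * (k + 1)) ^ 3 * K := by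
                apply mul_le_mul_of_nonneg_right _ hKR.le
                rw [mul_pow]
                apply mul_le_mul_of_nonneg_right _ (by positivity)
                norm_num
        refine (min_le_right _ _).trans ?_
        calc ((N : ℝ) ^ 2 / K) ^ ((1 : ℝ) / 3) ≤ ((5.04 * ((k : ℝ) + 1)) ^ 3) ^ ((1 : ℝ) / 3) :=
              Real.rpow_le_rpow (by positivity) h2 (by norm_num)
          _ = 5.04 * (k + 1) := by
              rw [← Real.rpow_natCast, ← Real.rpow_mul (by positivity)]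
              norm_num
      · have h0 : k = κ := min_eq_right h
        refine (min_le_left _ _).trans ?_
        rw [h0]
        have : (0 : ℝ) ≤ κ := by positivity
        linarith
    have h0 : (0 : ℝ) ≤ min (κ : ℝ) (((N : ℝ) ^ 2 / K) ^ ((1 : ℝ) / 3)) := le_min (by positivity) (by positivity)
    have h2 : min (κ : ℝ) (((N : ℝ) ^ 2 / K) ^ ((1 : ℝ) / 3)) / lam ≤ (4 * (t + 1)) ^ 4 := by
      rw [div_le_iff₀ (by linarith)]
      have h3 : (0 : ℝ) ≤ ((t : ℝ) + 1) ^ 4 * lam := by positivity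
      have h4 : (4 * ((t : ℝ) + 1)) ^ 4 * lam = 256 * ((t + 1) ^ 4 * lam) := by ring
      rw [h4]
      nlinarith
    calc (min (κ : ℝ) (((N : ℝ) ^ 2 / K) ^ ((1 : ℝ) / 3)) / lam) ^ ((1 : ℝ) / 4)
        ≤ ((4 * ((t : ℝ) + 1)) ^ 4) ^ ((1 : ℝ) / 4) :=
          Real.rpow_le_rpow (by positivity) h2 (by norm_num)
      _ = 4 * (t + 1) := by
          rw [← Real.rpow_natCast, ← Real.rpow_mul (by positivity)]
          norm_num
  by_cases ht3 : 3 ≤ t
  · have h1 := nat_bound (t := t) hNK hκ hkκ hNL ht3 (by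
      have h2 : a * (16 * (L + 1)) ≤ k - 1 := Nat.div_mul_le_self _ _
      have h3 : 16 * t ^ 4 * (L + 1) ≤ a * (16 * (L + 1)) := by
        calc 16 * t ^ 4 * (L + 1) = t ^ 4 * (16 * (L + 1)) := by ring
          _ ≤ a * (16 * (L + 1)) := Nat.mul_le_mul_right _ hta
      have h4 : 1 ≤ 16 * t ^ 4 * (L + 1) := Nat.mul_pos (by positivity) (by omega)
      omega) hkK C o hC hpat
    have h2 : (2 : ℝ) ^ (t - 1) ≤ C.size + 1 := by exact_mod_cast h1
    have h3 : (((t - 1 : ℕ) : ℕ) : ℝ) = t - 1 := by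
      rw [Nat.cast_sub (by omega)]
      norm_num
    calc (2 : ℝ) ^ ((min (κ : ℝ) (((N : ℝ) ^ 2 / K) ^ ((1 : ℝ) / 3)) / lam) ^ ((1 : ℝ) / 4) / 4 - 3)
        ≤ 2 ^ (((t - 1 : ℕ) : ℕ) : ℝ) :=
          Real.rpow_le_rpow_of_exponent_le (by norm_num) (by rw [h3]; linarith)
      _ = 2 ^ (t - 1) := Real.rpow_natCast _ _
      _ ≤ C.size + 1 := h2
  · have h1 : (t : ℝ) ≤ 2 := by exact_mod_cast (by omega : t ≤ 2)
    calc (2 : ℝ) ^ ((min (κ : ℝ) (((N : ℝ) ^ 2 / K) ^ ((1 : ℝ) / 3)) / lam) ^ ((1 : ℝ) / 4) / 4 - 3) ≤ 2 ^ (0 : ℝ) :=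
          Real.rpow_le_rpow_of_exponent_le (by norm_num) (by linarith)
      _ = 1 := Real.rpow_zero _
      _ ≤ C.size + 1 := by linarith

end Pool.Agent.HN
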