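import Pool.Agent.helper69.HN.Fin1
import Pool.Agent.helper55.NT.Threshold
import Pool.Agent.helper69.LN.Defs

/-!
# Project HN (MP_069684_lc): the half clique language
-/

set_option autoImplicit false

namespace Pool.Agent.HN

open Finset Pool.Agent.helper38.Neg Pool.Agent.helper83.Comb Pool.Agent.Mix Pool.Agent.helper55.NT
open Pool.Agent.LN (HC sb mix_sub mix_sub_pat LBU_mono)

/-- the substitution which keeps the adjacency matrix -/
def keep (n : ℕ) (i : Fin n) : Fin (Nat.sqrt n * Nat.sqrt n) ⊕ Bool :=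
  if h : (i : ℕ) < Nat.sqrt n * Nat.sqrt n then Sum.inl ⟨i, h⟩ else Sum.inr false

theorem keep_eq (n : ℕ) (y : Fin (Nat.sqrt n * Nat.sqrt n) → Bool) :
    (fun i => sb (keep n) y (Fin.castLE (Nat.sqrt_le n) i)) = y := by
  funext i
  unfold sb keep
  have h : ((Fin.castLE (Nat.sqrt_le n) i : Fin n) : ℕ) < Nat.sqrt n * Nat.sqrt n := i.2
  rw [dif_pos h]
  rfl

theorem hc_sub {n s K : ℕ} (C : MixCircuit n s) (o : Fin (n + s)) (hC : C.Computes o (HC n)) (hp : C.PatternsLE K) :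
    ∃ (C' : MixCircuit (Nat.sqrt n * Nat.sqrt n) (2 + s)) (o' : Fin (Nat.sqrt n * Nat.sqrt n + (2 + s))),
      C'.Computes o' (Clique (Nat.sqrt n) (Nat.sqrt n / 2)) ∧ C'.PatternsLE K ∧ C'.size = C.size := by
  obtain ⟨C', hsz, ρ, hρ, hrd⟩ := mix_sub n (Nat.sqrt n * Nat.sqrt n) s (keep n) C
  refine ⟨C', ρ o, ?_, ?_, hsz⟩
  · intro y
    rw [hρ y o]
    refine (hC _).trans ?_
    unfold HC
    rw [keep_eq]
  · intro x hx
    refine (mix_sub_pat (keep n) C C' ρ hρ hrd x).trans ?_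
    exact hp (fun i => sb (keep n) (x i)) (fun i i' hij => LBU_mono (keep n) (hx hij))

/-- powers of the logarithm are small -/
theorem lg_small (A e : ℕ) : ∃ n0, ∀ n ≥ n0, A * lg n ^ e ≤ Nat.sqrt n := by
  have h1 : Filter.Tendsto (fun l : ℕ => ((l : ℝ) ^ (2 * e)) / (2 : ℝ) ^ l) Filter.atTop (nhds 0) :=
    tendsto_pow_const_div_const_pow_of_one_lt (2 * e) (by norm_num)
  have h2 : ∀ᶠ l : ℕ in Filter.atTop, ((l : ℝ) ^ (2 * e)) / (2 : ℝ) ^ l < 1 / (16 * ((A : ℝ) + 1) ^ 2) :=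
    (tendsto_order.1 h1).2 _ (by positivity)
  obtain ⟨l0, hl0⟩ := Filter.eventually_atTop.1 h2
  refine ⟨2 ^ (l0 + 4), fun n hn => ?_⟩
  have hl : l0 + 4 ≤ lg n := by
    unfold lg
    exact (Nat.le_log_iff_pow_le (by norm_num) (by omega)).2 (by omega)
  have h3 := hl0 (lg n) (by omega)
  have h4 : (16 * ((A : ℝ) + 1) ^ 2) * (lg n : ℝ) ^ (2 * e) < (2 : ℝ) ^ lg n := by
    rw [div_lt_div_iff₀ (by positivity) (by positivity)] at h3
    linarith
  have h5 : 16 * (A + 1) ^ 2 * lg n ^ (2 * e) < 2 ^ lg n := by exact_mod_cast h4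
  have h6 : 2 ^ lg n ≤ n + 2 := by
    unfold lg
    exact Nat.pow_log_le_self 2 (by omega)
  have h7 : 16 ≤ n := by
    have : 2 ^ 4 ≤ 2 ^ (l0 + 4) := Nat.pow_le_pow_right (by norm_num) (by omega)
    omega
  rw [Nat.le_sqrt]
  have h8 : (A * lg n ^ e) * (A * lg n ^ e) ≤ (A + 1) ^ 2 * lg n ^ (2 * e) := by
    have h9 : lg n ^ (2 * e) = lg n ^ e * lg n ^ e := by rw [← pow_add]; congr 1; omega
    rw [h9]
    calc (A * lg n ^ e) * (A * lg n ^ e) = A ^ 2 * (lg n ^ e * lg n ^ e) := by ring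
      _ ≤ (A + 1) ^ 2 * (lg n ^ e * lg n ^ e) :=
          Nat.mul_le_mul_right _ (Nat.pow_le_pow_left (by omega) 2)
  have h10 : 16 * (A + 1) ^ 2 * lg n ^ (2 * e) = 16 * ((A + 1) ^ 2 * lg n ^ (2 * e)) := by ring
  omega

/-- The bound for the half clique language. -/
theorem hc_lower (D e : ℕ) (hD : 3 ≤ D) : ∃ A n0 : ℕ, ∀ n ≥ n0, ∀ (s K : ℕ) (C : MixCircuit n s) (o : Fin (n + s)),
    C.Computes o (HC n) → C.PatternsLE K → A * lg n ^ (12 * e + 3) * K ≤ n → 2 ^ (D * lg n ^ e - 1) ≤ C.size + 1 := by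
  -- the constant
  set B : ℕ := 128 * 35937 * D ^ 12 with hB
  obtain ⟨n1, hn1⟩ := lg_small B (12 * e + 3)
  obtain ⟨n2, hn2⟩ := lg_small (2 * 33 * D ^ 4) (4 * e + 1)
  refine ⟨4 * B, max 16 (max n1 n2), fun n hn s K C o hC hp hK => ?_⟩
  have hn16 : 16 ≤ n := (le_max_left _ _).trans hn
  have h1 := hn1 n (((le_max_left _ _).trans (le_max_right _ _)).trans hn)
  have h2 := hn2 n (((le_max_right _ _).trans (le_max_right _ _)).trans hn)
  set M := Nat.sqrt n with hM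
  have hl1 : 1 ≤ lg n := lg_pos n
  have hM1 : n < (M + 1) * (M + 1) := Nat.lt_succ_sqrt n
  have hM4 : 4 ≤ M := by
    rw [hM, Nat.le_sqrt]
    omega
  have hM2 : M * M ≤ n := Nat.sqrt_le n
  set t := D * lg n ^ e with ht
  have hle : 1 ≤ lg n ^ e := Nat.one_le_pow _ _ hl1
  have ht3 : 3 ≤ t := by
    calc 3 = 3 * 1 := rfl
      _ ≤ D * lg n ^ e := Nat.mul_le_mul hD hle
  set k := 16 * t ^ 4 * (lg n + 1) + 1 with hk
  have hk33 : k ≤ 33 * D ^ 4 * lg n ^ (4 * e + 1) := by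
    have e1 : t ^ 4 = D ^ 4 * lg n ^ (4 * e) := by
      rw [ht, mul_pow, ← pow_mul, mul_comm e 4]
    have e2 : lg n ^ (4 * e + 1) = lg n ^ (4 * e) * lg n := pow_succ _ _
    have h3 : 1 ≤ D ^ 4 * lg n ^ (4 * e) := Nat.mul_pos (by positivity) (Nat.one_le_pow _ _ hl1)
    rw [hk, e1, e2]
    calc 16 * (D ^ 4 * lg n ^ (4 * e)) * (lg n + 1) + 1
        ≤ 16 * (D ^ 4 * lg n ^ (4 * e)) * (lg n + lg n) + D ^ 4 * lg n ^ (4 * e) * lg n := by
          apply Nat.add_le_add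
          · exact Nat.mul_le_mul_left _ (by omega)
          · calc 1 = 1 * 1 := rfl
              _ ≤ D ^ 4 * lg n ^ (4 * e) * lg n := Nat.mul_le_mul h3 hl1
      _ = 33 * D ^ 4 * (lg n ^ (4 * e) * lg n) := by ring
  have hk3 : 128 * k ^ 3 ≤ B * lg n ^ (12 * e + 3) := by
    calc 128 * k ^ 3 ≤ 128 * (33 * D ^ 4 * lg n ^ (4 * e + 1)) ^ 3 :=
          Nat.mul_le_mul_left _ (Nat.pow_le_pow_left hk33 3)
      _ = B * lg n ^ (12 * e + 3) := by
          rw [hB, mul_pow, mul_pow, ← pow_mul, ← pow_mul]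
          have : (4 * e + 1) * 3 = 12 * e + 3 := by ring
          rw [this]
          ring
  have hkM : k ≤ M / 2 := by
    rw [Nat.le_div_iff_mul_le (by norm_num)]
    calc k * 2 ≤ 33 * D ^ 4 * lg n ^ (4 * e + 1) * 2 := Nat.mul_le_mul_right _ hk33
      _ = 2 * 33 * D ^ 4 * lg n ^ (4 * e + 1) := by ring
      _ ≤ M := h2
  have hMlg : M ≤ 2 ^ lg n := by
    have h3 := lt_two_pow_lg n
    rw [pow_succ] at h3
    nlinarith
  obtain ⟨C', o', hC', hp', hsz⟩ := hc_sub C o hC hp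
  rw [← hsz]
  refine nat_bound (N := M) (K := max M K) (κ := M / 2) (k := k) (t := t) (L := lg n) (le_max_left _ _) (by omega) hkM
    hMlg ht3 le_rfl ?_ C' o' hC' ?_
  · rcases le_total M K with h | h
    · rw [max_eq_right h]
      have h3 : 128 * k ^ 3 * K ≤ B * lg n ^ (12 * e + 3) * K := Nat.mul_le_mul_right _ hk3
      have h4 : 4 * B * lg n ^ (12 * e + 3) * K = 4 * (B * lg n ^ (12 * e + 3) * K) := by ring
      nlinarith
    · rw [max_eq_left h]
      calc 128 * k ^ 3 * M ≤ B * lg n ^ (12 * e + 3) * M := Nat.mul_le_mul_right _ hk3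
        _ ≤ M * M := Nat.mul_le_mul_right _ h1
        _ = M ^ 2 := (pow_two _).symm
  · intro x hx
    exact (hp' x hx).trans (by exact_mod_cast le_max_right M K)

end Pool.Agent.HN
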