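import Pool.Agent.helper69.HN.Thr
import Pool.Agent.helper80.HM.All2
import Pool.Agent.helper13.LN.HNP

/-!
# Project HN (MP_069684_lc): how many NOT gates does half clique need?
-/

set_option autoImplicit false

namespace Pool.Agent.HN

open Finset Pool.Agent.helper38.Neg Pool.Agent.helper83.Comb Pool.Agent.Mix Pool.Agent.helper55.NT
open Pool.Agent.LN (HC HNP)

/-- The lower bound for circuits with AND, OR and NOT gates. -/
theorem hc_circuit (D e : ℕ) (hD : 3 ≤ D) : ∃ A n0 : ℕ, ∀ n ≥ n0, ∀ (s r : ℕ) (C : Circuit n s) (o : Fin (n + s)),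
    C.Computes o (HC n) → C.notCount ≤ r → A * lg n ^ (12 * e + 3) * 2 ^ r ≤ n → 2 ^ (D * lg n ^ e - 1) ≤ s + 1 := by
  obtain ⟨A, n0, h⟩ := hc_lower D e hD
  refine ⟨A, n0, fun n hn s r C o hC hr hK => ?_⟩
  have h1 := h n hn s (2 ^ r) (toMix C) o (toMix_computes C o _ hC)
    (toMix_patterns C (patterns_of_notCount C (Nat.pow_le_pow_right (by norm_num) hr))) hK
  have h2 := toMix_size C
  omega

theorem hn_poly (r : ℕ → ℕ) (hr : ∃ c, ∀ n, n ≤ c * 2 ^ r n) :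
    PolyNots r HC ↔ ∀ A, InNPPoly A → InPPoly A := by
  constructor
  · rintro ⟨p, hp⟩
    refine Pool.Agent.HM.all_NPC.1 ⟨p, fun n => ?_⟩
    obtain ⟨s, hs, C, o, hC, -⟩ := hp n
    exact ⟨s, hs, C, o, hC⟩
  · intro h
    exact (poly_criterion r hr).1 h HC HNP.1 HNP.2

theorem hn_poly_neg (r : ℕ → ℕ) (hr : ∃ᶠ n in Filter.atTop, 2 ^ r n * lg n ^ 16 ≤ n) : ¬ PolyNots r HC := by
  rintro ⟨p, hp⟩
  obtain ⟨k, hk⟩ := eval_le_two_pow p
  obtain ⟨A, n0, h⟩ := hc_circuit (k + 3) 1 (by omega)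
  obtain ⟨n, hn, hn1⟩ := (hr.and_eventually (Filter.eventually_ge_atTop (max n0 (2 ^ A)))).exists
  have hn0 : n0 ≤ n := (le_max_left _ _).trans hn1
  have hnA : 2 ^ A ≤ n := (le_max_right _ _).trans hn1
  have hlA : A ≤ lg n := by
    unfold lg
    exact (Nat.le_log_iff_pow_le (by norm_num) (by omega)).2 (by omega)
  obtain ⟨s, hs, C, o, hC, hnot⟩ := hp n
  have h1 := h n hn0 s (r n) C o hC hnot (by
    calc A * lg n ^ (12 * 1 + 3) * 2 ^ r n ≤ lg n * lg n ^ (12 * 1 + 3) * 2 ^ r n :=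
          Nat.mul_le_mul_right _ (Nat.mul_le_mul_right _ hlA)
      _ = 2 ^ r n * lg n ^ 16 := by ring
      _ ≤ n := hn)
  have h2 : s ≤ 2 ^ (k * lg n ^ 1) := hs.trans (hk n)
  have hl1 : 1 ≤ lg n := lg_pos n
  have h3 : k * lg n ^ 1 + 2 ≤ (k + 3) * lg n ^ 1 - 1 := by
    rw [pow_one]
    have : (k + 3) * lg n = k * lg n + 3 * lg n := by ring
    omega
  have h4 : 2 ^ (k * lg n ^ 1 + 2) ≤ 2 ^ ((k + 3) * lg n ^ 1 - 1) := Nat.pow_le_pow_right (by norm_num) h3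
  have h5 : 2 ^ (k * lg n ^ 1 + 2) = 4 * 2 ^ (k * lg n ^ 1) := by rw [pow_add]; ring
  have h6 : 1 ≤ 2 ^ (k * lg n ^ 1) := Nat.one_le_two_pow
  omega

theorem hn_quasi (r : ℕ → ℕ) :
    QuasiNots r HC ↔ (∃ c, ∀ n, n ≤ c * lg n ^ c * 2 ^ r n) ∧ ∀ A, InNPPoly A → InQuasi A := by
  constructor
  · rintro ⟨k, hk⟩
    constructor
    · by_contra hcon
      push Not at hcon
      obtain ⟨A, n0, h⟩ := hc_circuit (k + 3) k (by omega)
      obtain ⟨n, hn⟩ := hcon (A + n0 + (12 * k + 3))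
      set c := A + n0 + (12 * k + 3) with hc
      have hl1 : 1 ≤ lg n := lg_pos n
      have hp1 : 1 ≤ lg n ^ c := Nat.one_le_pow _ _ hl1
      have hp2 : 1 ≤ 2 ^ r n := Nat.one_le_two_pow
      have hcn : c ≤ n := by
        calc c = c * 1 * 1 := by ring
          _ ≤ c * lg n ^ c * 2 ^ r n := Nat.mul_le_mul (Nat.mul_le_mul_left _ hp1) hp2
          _ ≤ n := hn.le
      obtain ⟨s, hs, C, o, hC, hnot⟩ := hk n
      have h1 := h n (by omega) s (r n) C o hC hnot (by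
        calc A * lg n ^ (12 * k + 3) * 2 ^ r n ≤ c * lg n ^ c * 2 ^ r n :=
              Nat.mul_le_mul_right _ (Nat.mul_le_mul (by omega) (Nat.pow_le_pow_right hl1 (by omega)))
          _ ≤ n := hn.le)
      have h2 : s ≤ 2 ^ (k * lg n ^ k) := hs
      have hlk : 1 ≤ lg n ^ k := Nat.one_le_pow _ _ hl1
      have h3 : k * lg n ^ k + 2 ≤ (k + 3) * lg n ^ k - 1 := by
        have : (k + 3) * lg n ^ k = k * lg n ^ k + 3 * lg n ^ k := by ring
        omega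
      have h4 : 2 ^ (k * lg n ^ k + 2) ≤ 2 ^ ((k + 3) * lg n ^ k - 1) := Nat.pow_le_pow_right (by norm_num) h3
      have h5 : 2 ^ (k * lg n ^ k + 2) = 4 * 2 ^ (k * lg n ^ k) := by rw [pow_add]; ring
      have h6 : 1 ≤ 2 ^ (k * lg n ^ k) := Nat.one_le_two_pow
      omega
    · refine Pool.Agent.HM.all_NPC.2 ⟨k, fun n => ?_⟩
      obtain ⟨s, hs, C, o, hC, -⟩ := hk n
      exact ⟨s, hs, C, o, hC⟩
  · rintro ⟨h1, h2⟩
    exact (quasi_criterion r).2 ⟨h1, h2⟩ HC HNP.1 HNP.2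

end Pool.Agent.HN
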